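import Pool.Agent.Helper60.RT.M6c
import Pool.Agent.Helper65.RT.Q2

/-!
# RT-Q3: the moment of a sector

PROOF. `m12 ≤ card ^ 6 * m6` pointwise, Q1 for the integral over the radii, Q2 for the two counts; `N / D ≤ 2 (N / D) ^ 2` because `D ≤ k.1 < 2 N` for any `k` in `S`.
-/

open MeasureTheory Real Set Filter Topology

set_option autoImplicit false

namespace Pool.Agent.Helper60.RT

open Pool.Agent.Helper22.AE
open Pool.Agent.Helper92.GC (dt tp Tq uu tt arc dd sqa m6)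
open Pool.Agent.Helper92.DT (m12 IsMul12)
open Pool.Agent.Helper60.LT (Fr Tf xf yf df vf fr ac co Cut BB)
open Pool.Agent.Helper60.QL (R3 nm pA xA sA TA Cone)

private theorem tpc47 (S : Finset (ℤ × ℤ)) {b : ℤ × ℤ → ℂ} (hb : ∀ k, ‖b k‖ ≤ 1) (c : ℝ × ℝ) :
    ‖tp S b c‖ ≤ (S.card : ℝ) := by
  refine (Pool.Agent.Helper92.GC.tp_norm_le S b c).trans ?_
  refine (Finset.sum_le_card_nsmul _ _ 1 fun k _ => hb k).trans (by simp)

private theorem m12m6_47 (S : Finset (ℤ × ℤ)) {b : ℤ × ℤ → ℂ} (hb : ∀ k, ‖b k‖ ≤ 1) :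
    m12 S b ≤ (S.card : ℝ) ^ 6 * m6 S b := by
  have hfin : IsFiniteMeasure ((volume : Measure (ℝ × ℝ)).restrict Tq) := by
    refine ⟨?_⟩
    rw [Measure.restrict_apply_univ]
    exact (isCompact_Icc.prod isCompact_Icc).measure_lt_top
  have hint : Integrable (fun c => ‖tp S b c‖ ^ 6) (volume.restrict Tq) := by
    refine Integrable.of_bound (C := (S.card : ℝ) ^ 6)
      ((Pool.Agent.Helper92.GC.tp_cont S b).norm.pow 6).aestronglyMeasurable (Filter.Eventually.of_forall fun c => ?_)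
    rw [Real.norm_of_nonneg (by positivity)]
    exact pow_le_pow_left₀ (norm_nonneg _) (tpc47 S hb c) 6
  unfold m12 m6
  rw [← integral_const_mul]
  refine integral_mono_of_nonneg (Filter.Eventually.of_forall fun q => by positivity)
      (hint.const_mul _) (Filter.Eventually.of_forall fun c => ?_)
  change ‖tp S b c‖ ^ 12 ≤ _
  have h4 : ‖tp S b c‖ ^ 12 = ‖tp S b c‖ ^ 6 * ‖tp S b c‖ ^ 6 := by ring
  rw [h4]
  exact mul_le_mul_of_nonneg_right (pow_le_pow_left₀ (norm_nonneg _) (tpc47 S hb c) 6) (by positivity)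

private theorem cn47 {N : ℕ} {k : ℤ × ℤ} (hk : k ∈ cn N) : (N : ℝ) ≤ k.1 ∧ (k.1 : ℝ) < 2 * N ∧ |(k.2 : ℝ)| ≤ k.1 := by
  classical
  unfold cn sqa at hk
  obtain ⟨h1, h2, h3⟩ := Finset.mem_filter.1 hk
  obtain ⟨-, h4, h5, h6⟩ := Finset.mem_filter.1 h1
  have hpos : 0 < k.1 := by linarith
  have h7 : |k.2| ≤ k.1 := abs_le.2 ⟨h2.le, h3⟩
  rw [abs_of_pos hpos] at h4 h5
  have h8 : (N : ℤ) ≤ k.1 := by
    rcases h4 with h | h
    · exact h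
    · exact h.trans h7
  refine ⟨by exact_mod_cast h8, by exact_mod_cast h5, by exact_mod_cast h7⟩

/-- the numerical part -/
private theorem num47 {B C₁ C₂ η X N P Q D₁ card prs : ℝ} (hη : 0 < η) (hB : 1 ≤ B) (hC₁ : 1 ≤ C₁) (hC₂ : 1 ≤ C₂) (hX : 1 ≤ X) (hN : 1 ≤ N) (hNX : N ≤ X)
    (hP : 0 ≤ P) (hQ : 0 ≤ Q) (hD : D₁ = C₁ * (1 + N ^ 2 / √(N * X))) (hc0 : 0 ≤ card) (hc : card ≤ C₂ * (1 + log N) * P) (hp0 : 0 ≤ prs)
    (hp : prs ≤ C₂ * (1 + log N) * D₁ * (3 * Q)) :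
    card ^ 6 * (C₁ * X * N ^ (η / 2) * card * prs ^ 2) * B ≤
      (18 * B * C₁ ^ 3 * C₂ ^ 9 * (1 + 18 / η) ^ 9) * X ^ (1 + η) * P ^ 7 * Q ^ 2 * (1 + N ^ 3 / X) := by
  have hX0 : 0 < X := by linarith
  have hN0 : 0 < N := by linarith
  have hl0 : 0 ≤ log N := log_nonneg hN
  have ht : 0 < η / 18 := by positivity
  have hXt : 1 ≤ X ^ (η / 18) := one_le_rpow hX ht.le
  have hlog : 1 + log N ≤ (1 + 18 / η) * X ^ (η / 18) := by
    have h1 : log N ≤ log X := log_le_log hN0 hNX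
    have h2 : log X ≤ X ^ (η / 18) / (η / 18) := log_le_rpow_div hX0.le ht
    have h3 : X ^ (η / 18) / (η / 18) = 18 / η * X ^ (η / 18) := by field_simp
    rw [h3] at h2
    calc 1 + log N ≤ X ^ (η / 18) + 18 / η * X ^ (η / 18) := by linarith
      _ = _ := by ring
  have hlog9 : (1 + log N) ^ 9 ≤ (1 + 18 / η) ^ 9 * X ^ (η / 2) := by
    refine (pow_le_pow_left₀ (by linarith) hlog 9).trans (le_of_eq ?_)
    rw [mul_pow, ← rpow_natCast (X ^ (η / 18)) 9, ← rpow_mul hX0.le]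
    congr 2
    push_cast
    ring
  have hNe : N ^ (η / 2) ≤ X ^ (η / 2) := rpow_le_rpow hN0.le hNX (by positivity)
  have hD0 : 0 ≤ D₁ := by
    rw [hD]
    positivity
  have hD2 : D₁ ^ 2 ≤ 2 * C₁ ^ 2 * (1 + N ^ 3 / X) := by
    have h1 : (N ^ 2 / √(N * X)) ^ 2 = N ^ 3 / X := by
      rw [div_pow, Real.sq_sqrt (by positivity)]
      field_simp
    have h2 : (1 + N ^ 2 / √(N * X)) ^ 2 ≤ 2 * (1 + N ^ 3 / X) := by
      have h3 := sq_nonneg (1 - N ^ 2 / √(N * X))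
      have h4 : (1 + N ^ 2 / √(N * X)) ^ 2 + (1 - N ^ 2 / √(N * X)) ^ 2 = 2 * (1 + (N ^ 2 / √(N * X)) ^ 2) := by ring
      rw [h1] at h4
      linarith
    rw [hD, mul_pow]
    have := mul_le_mul_of_nonneg_left h2 (sq_nonneg C₁)
    linarith
  have hc7 : card ^ 7 ≤ (C₂ * (1 + log N) * P) ^ 7 := pow_le_pow_left₀ hc0 hc 7
  have hp2 : prs ^ 2 ≤ (C₂ * (1 + log N) * D₁ * (3 * Q)) ^ 2 := pow_le_pow_left₀ hp0 hp 2
  have hXX : X * (X ^ (η / 2) * X ^ (η / 2)) = X ^ (1 + η) := by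
    rw [← rpow_add hX0]
    nth_rewrite 1 [← rpow_one X]
    rw [← rpow_add hX0]
    congr 1
    ring
  calc card ^ 6 * (C₁ * X * N ^ (η / 2) * card * prs ^ 2) * B = B * C₁ * X * (N ^ (η / 2) * (card ^ 7 * prs ^ 2)) := by ring
    _ ≤ B * C₁ * X * (X ^ (η / 2) * ((C₂ * (1 + log N) * P) ^ 7 * (C₂ * (1 + log N) * D₁ * (3 * Q)) ^ 2)) := by
        refine mul_le_mul_of_nonneg_left ?_ (by positivity)
        exact mul_le_mul hNe (mul_le_mul hc7 hp2 (by positivity) (by positivity)) (by positivity) (by positivity)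
    _ = (9 * B * C₁ * C₂ ^ 9) * (X * X ^ (η / 2)) * (P ^ 7 * Q ^ 2) * ((1 + log N) ^ 9 * D₁ ^ 2) := by ring
    _ ≤ (9 * B * C₁ * C₂ ^ 9) * (X * X ^ (η / 2)) * (P ^ 7 * Q ^ 2) * (((1 + 18 / η) ^ 9 * X ^ (η / 2)) * (2 * C₁ ^ 2 * (1 + N ^ 3 / X))) := by
        refine mul_le_mul_of_nonneg_left ?_ (by positivity)
        exact mul_le_mul hlog9 hD2 (by positivity) (by positivity)
    _ = (18 * B * C₁ ^ 3 * C₂ ^ 9 * (1 + 18 / η) ^ 9) * (X * (X ^ (η / 2) * X ^ (η / 2))) * P ^ 7 * Q ^ 2 * (1 + N ^ 3 / X) := by ring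
    _ = _ := by rw [hXX]

/-- Q3 from Q1 and Q2 -/
theorem sec_bd_of {e : Fr} {η B : ℝ} (hη : 0 < η) (hB : 1 ≤ B)
    (hQ1 : ∃ C : ℝ, 1 ≤ C ∧ ∀ (X H s : ℝ) (S : Finset (ℤ × ℤ)), 1 ≤ X → 1 ≤ H → Cone H 2 S → s ∈ Icc B⁻¹ B →
      ∫⁻ r in Icc (X / B) (B * X), ENNReal.ofReal (m6 S (fun k => ee (r * nm (vf (st s e) k)))) ≤
        ENNReal.ofReal (C * X * H ^ (η / 2) * (S.card : ℝ) * ((prs S (C * (1 + H ^ 2 / √(H * X)))).card : ℝ) ^ 2))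
    (hQ2 : ∃ C : ℝ, 1 ≤ C ∧ ∀ (N : ℕ) (W D τ : ℝ) (S : Finset (ℤ × ℤ)), 1 ≤ N → 0 ≤ W → 1 ≤ D → S ⊆ cn N → (∀ k ∈ S, |tt 0 k - τ| ≤ W) →
    (∀ k ∈ S, D * (Int.gcd k.1 k.2 : ℝ) ≤ k.1) →
      (S.card : ℝ) ≤ C * (1 + log N) * (N ^ 2 * W + N / D) ∧ ∀ D₁ : ℝ, 1 ≤ D₁ →
        ((prs S D₁).card : ℝ) ≤ C * (1 + log N) * D₁ * (N ^ 2 * W + (N / D) ^ 2 + N / D)) : ∃ C : ℝ, 1 ≤ C ∧ ∀ (X : ℝ) (N : ℕ) (W D τ : ℝ) (S : Finset (ℤ × ℤ)), 1 ≤ X → 1 ≤ N →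
    (N : ℝ) ≤ X → 0 ≤ W → W ≤ 2 → 1 ≤ D → S ⊆ cn N → (∀ k ∈ S, |tt 0 k - τ| ≤ W) → (∀ k ∈ S, D * (Int.gcd k.1 k.2 : ℝ) ≤ k.1) →
      RI e B X S ≤ ENNReal.ofReal (C * X ^ (1 + η) * (N ^ 2 * W + N / D) ^ 7 * (N ^ 2 * W + (N / D) ^ 2) ^ 2 * (1 + N ^ 3 / X)) := by
  obtain ⟨C₁, hC₁, h1⟩ := hQ1
  obtain ⟨C₂, hC₂, h2⟩ := hQ2
  have hη1 : 1 ≤ 1 + 18 / η := by
    have : 0 ≤ 18 / η := by positivity
    linarith
  refine ⟨18 * B * C₁ ^ 3 * C₂ ^ 9 * (1 + 18 / η) ^ 9, ?_, ?_⟩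
  · have a1 : 1 ≤ 18 * B := by linarith
    have a2 : 1 ≤ C₁ ^ 3 := one_le_pow₀ hC₁
    have a3 : 1 ≤ C₂ ^ 9 := one_le_pow₀ hC₂
    have a4 : 1 ≤ (1 + 18 / η) ^ 9 := one_le_pow₀ hη1
    exact one_le_mul_of_one_le_of_one_le (one_le_mul_of_one_le_of_one_le (one_le_mul_of_one_le_of_one_le a1 a2) a3) a4
  intro X N W D τ S hX hN hNX hW hW2 hD hS hτ hgcd
  have hNr : (1 : ℝ) ≤ N := by exact_mod_cast hN
  have hB0 : 0 < B := by linarith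
  have hX0 : 0 < X := by linarith
  have hD0 : 0 < D := by linarith
  rcases S.eq_empty_or_nonempty with hSe | ⟨k₀, hk₀⟩
  · have h0 : RI e B X S = 0 := by
      unfold RI mr m12 tp
      rw [hSe]
      simp
    rw [h0]
    exact zero_le
  -- the cone condition
  have hcone : Cone (N : ℝ) 2 S := by
    intro k hk
    obtain ⟨a, b, c⟩ := cn47 (hS hk)
    have hk0 : (0 : ℝ) ≤ k.1 := by linarith
    exact ⟨by linarith, b.le, by linarith⟩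
  obtain ⟨hcard, hprs⟩ := h2 N W D τ S hN hW hD hS hτ hgcd
  obtain ⟨D₁, hD₁⟩ : ∃ D₁ : ℝ, D₁ = C₁ * (1 + (N : ℝ) ^ 2 / √(N * X)) := ⟨_, rfl⟩
  have hD1 : 1 ≤ D₁ := by
    rw [hD₁]
    refine one_le_mul_of_one_le_of_one_le hC₁ ?_
    have : 0 ≤ (N : ℝ) ^ 2 / √(N * X) := by positivity
    linarith
  have hpr := hprs D₁ hD1
  -- `N / D ≤ 2 (N / D)²`
  have hND : (1 : ℝ) / 2 ≤ N / D := by
    obtain ⟨a, b, c⟩ := cn47 (hS hk₀)
    have hkpos : 0 < k₀.1 := by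
      have : (0 : ℝ) < k₀.1 := by linarith
      exact_mod_cast this
    have hg : 1 ≤ Int.gcd k₀.1 k₀.2 := Nat.one_le_iff_ne_zero.2 fun h => by
      have := (Int.gcd_eq_zero_iff.1 h).1
      omega
    have hg' : (1 : ℝ) ≤ (Int.gcd k₀.1 k₀.2 : ℝ) := by exact_mod_cast hg
    have h3 : D ≤ D * (Int.gcd k₀.1 k₀.2 : ℝ) := le_mul_of_one_le_right hD0.le hg'
    have h4 := hgcd k₀ hk₀
    rw [le_div_iff₀ hD0]
    linarith
  have hR : (N : ℝ) ^ 2 * W + (N / D) ^ 2 + N / D ≤ 3 * ((N : ℝ) ^ 2 * W + (N / D) ^ 2) := by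
    have h3 : (N : ℝ) / D ≤ 2 * (N / D) ^ 2 := by nlinarith
    have h4 : 0 ≤ (N : ℝ) ^ 2 * W := by positivity
    linarith
  have hlN : 0 ≤ log (N : ℝ) := log_nonneg hNr
  have hpr' : ((prs S D₁).card : ℝ) ≤ C₂ * (1 + log N) * D₁ * (3 * ((N : ℝ) ^ 2 * W + (N / D) ^ 2)) :=
    hpr.trans (mul_le_mul_of_nonneg_left hR (by positivity))
  -- the integral over the radii
  obtain ⟨K, hK⟩ : ∃ K : ℝ, K = (S.card : ℝ) ^ 6 * (C₁ * X * (N : ℝ) ^ (η / 2) * (S.card : ℝ) * ((prs S D₁).card : ℝ) ^ 2) := ⟨_, rfl⟩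
  have hK0 : 0 ≤ K := by
    rw [hK]
    positivity
  have hin : ∀ s ∈ Icc B⁻¹ B, ∫⁻ r in Icc (X / B) (B * X), ENNReal.ofReal (mr S r (st s e)) ≤ ENNReal.ofReal K := by
    intro s hs
    calc ∫⁻ r in Icc (X / B) (B * X), ENNReal.ofReal (mr S r (st s e))
        ≤ ∫⁻ r in Icc (X / B) (B * X), ENNReal.ofReal ((S.card : ℝ) ^ 6) * ENNReal.ofReal (m6 S (fun k => ee (r * nm (vf (st s e) k)))) := by
          refine lintegral_mono fun r => ?_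
          rw [← ENNReal.ofReal_mul (by positivity)]
          refine ENNReal.ofReal_le_ofReal ?_
          exact m12m6_47 S fun k => (ee_norm _).le
      _ = ENNReal.ofReal ((S.card : ℝ) ^ 6) * ∫⁻ r in Icc (X / B) (B * X), ENNReal.ofReal (m6 S (fun k => ee (r * nm (vf (st s e) k)))) :=
          lintegral_const_mul' _ _ ENNReal.ofReal_ne_top
      _ ≤ ENNReal.ofReal ((S.card : ℝ) ^ 6) * ENNReal.ofReal (C₁ * X * (N : ℝ) ^ (η / 2) * (S.card : ℝ) * ((prs S D₁).card : ℝ) ^ 2) := by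
          refine mul_le_mul_right ?_ _
          rw [hD₁]
          exact h1 X N s S hX hNr hcone hs
      _ = ENNReal.ofReal K := by
          rw [← ENNReal.ofReal_mul (by positivity), hK]
  have hvol : volume (Icc B⁻¹ B) ≤ ENNReal.ofReal B := by
    rw [Real.volume_Icc]
    refine ENNReal.ofReal_le_ofReal ?_
    have : 0 < B⁻¹ := by positivity
    linarith
  calc RI e B X S ≤ ∫⁻ _s in Icc B⁻¹ B, ENNReal.ofReal K := setLIntegral_mono' measurableSet_Icc hin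
    _ = ENNReal.ofReal K * volume (Icc B⁻¹ B) := by rw [setLIntegral_const]
    _ ≤ ENNReal.ofReal K * ENNReal.ofReal B := mul_le_mul_right hvol _
    _ = ENNReal.ofReal (K * B) := by rw [ENNReal.ofReal_mul hK0]
    _ ≤ _ := by
        refine ENNReal.ofReal_le_ofReal ?_
        rw [hK]
        exact num47 hη hB hC₁ hC₂ hX hNr hNX (by positivity) (by positivity) hD₁ (by positivity) hcard (by positivity) hpr'

/-- Q3: the moment of a sector -/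
theorem sec_bd {e : Fr} (he : 0 < df e) {η B : ℝ} (hη : 0 < η) (hB : 1 ≤ B) : ∃ C : ℝ, 1 ≤ C ∧ ∀ (X : ℝ) (N : ℕ) (W D τ : ℝ) (S : Finset (ℤ × ℤ)), 1 ≤ X → 1 ≤ N →
    (N : ℝ) ≤ X → 0 ≤ W → W ≤ 2 → 1 ≤ D → S ⊆ cn N → (∀ k ∈ S, |tt 0 k - τ| ≤ W) → (∀ k ∈ S, D * (Int.gcd k.1 k.2 : ℝ) ≤ k.1) →
      RI e B X S ≤ ENNReal.ofReal (C * X ^ (1 + η) * (N ^ 2 * W + N / D) ^ 7 * (N ^ 2 * W + (N / D) ^ 2) ^ 2 * (1 + N ^ 3 / X)) :=
  sec_bd_of hη hB (m6_fix he (ε := η / 2) (by positivity) hB (by norm_num)) count_sec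

end Pool.Agent.Helper60.RT
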